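import Pool.Agent.Y16.AF.StmP

/-!
# Project AF (helper16): two derivatives of the logarithm of the partition function
-/

open MeasureTheory Matrix Filter
open scoped Matrix.Norms.Frobenius Topology
open Pool.Agent.Y16.Gluon Pool.Agent.Y16.AF

namespace Pool.Agent.Y515.AF

set_option linter.unusedSectionVars false

noncomputable section

/-! ### Abstract differentiation -/

section abs

variable {Ω : Type*} [TopologicalSpace Ω] [CompactSpace Ω] [MeasurableSpace Ω]
  [OpensMeasurableSpace Ω] (P : Measure Ω) [IsProbabilityMeasure P]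

theorem int_of_cont {f : Ω → ℝ} (hf : Continuous f) : Integrable f P :=
  hf.integrable_of_hasCompactSupport (HasCompactSupport.of_compactSpace _)

theorem deriv_int {F F' : ℝ → Ω → ℝ} (hF : Continuous fun p : ℝ × Ω => F p.1 p.2)
    (hF' : Continuous fun p : ℝ × Ω => F' p.1 p.2)
    (h : ∀ ε ω, HasDerivAt (fun ε => F ε ω) (F' ε ω) ε) (ε₀ : ℝ) :
    HasDerivAt (fun ε => ∫ ω, F ε ω ∂P) (∫ ω, F' ε₀ ω ∂P) ε₀ := by
  have hc : ∀ ε, Continuous (F ε) := fun ε => hF.comp (Continuous.prodMk_right ε)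
  have hc' : ∀ ε, Continuous (F' ε) := fun ε => hF'.comp (Continuous.prodMk_right ε)
  obtain ⟨C, hC⟩ := ((isCompact_closedBall ε₀ (1 : ℝ)).prod
    (isCompact_univ (X := Ω))).exists_bound_of_continuousOn hF'.continuousOn
  refine (hasDerivAt_integral_of_dominated_loc_of_deriv_le
    (s := Metric.ball ε₀ 1) (bound := fun _ => C) (Metric.ball_mem_nhds ε₀ one_pos)
    (Filter.Eventually.of_forall fun ε => (hc ε).aestronglyMeasurable)
    (int_of_cont P (hc ε₀)) (hc' ε₀).aestronglyMeasurable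
    (Filter.Eventually.of_forall fun ω ε hε => hC (ε, ω) ⟨Metric.ball_subset_closedBall hε,
      Set.mem_univ _⟩) (integrable_const _)
    (Filter.Eventually.of_forall fun ω ε _ => h ε ω)).2

theorem abs_diff {S S' S'' : ℝ → Ω → ℝ} (hS : Continuous fun p : ℝ × Ω => S p.1 p.2)
    (hS' : Continuous fun p : ℝ × Ω => S' p.1 p.2)
    (hS'' : Continuous fun p : ℝ × Ω => S'' p.1 p.2)
    (h1 : ∀ ε ω, HasDerivAt (fun ε => S ε ω) (S' ε ω) ε)
    (h2 : ∀ ε ω, HasDerivAt (fun ε => S' ε ω) (S'' ε ω) ε) (β : ℝ) :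
    iteratedDeriv 2 (fun ε => -Real.log (∫ ω, Real.exp (-(β * S ε ω)) ∂P)) 0 =
      β * ((∫ ω, S'' 0 ω * Real.exp (-(β * S 0 ω)) ∂P) / ∫ ω, Real.exp (-(β * S 0 ω)) ∂P) -
      β ^ 2 * ((∫ ω, S' 0 ω ^ 2 * Real.exp (-(β * S 0 ω)) ∂P) /
        (∫ ω, Real.exp (-(β * S 0 ω)) ∂P) -
        ((∫ ω, S' 0 ω * Real.exp (-(β * S 0 ω)) ∂P) / ∫ ω, Real.exp (-(β * S 0 ω)) ∂P) ^ 2) := by
  set Z : ℝ → ℝ := fun ε => ∫ ω, Real.exp (-(β * S ε ω)) ∂P with hZ
  set Z1 : ℝ → ℝ := fun ε => ∫ ω, -(β * S' ε ω) * Real.exp (-(β * S ε ω)) ∂P with hZ1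
  set Z2 : ℝ → ℝ := fun ε => ∫ ω, (β ^ 2 * S' ε ω ^ 2 - β * S'' ε ω) *
    Real.exp (-(β * S ε ω)) ∂P with hZ2
  have hpos : ∀ ε, 0 < Z ε := by
    intro ε
    have hc : Continuous fun ω => Real.exp (-(β * S ε ω)) := by
      have := hS.comp (Continuous.prodMk_right ε)
      exact Real.continuous_exp.comp (continuous_const.mul this).neg
    exact integral_exp_pos (int_of_cont P hc)
  have hE : ∀ ε ω, HasDerivAt (fun ε => Real.exp (-(β * S ε ω)))
      (Real.exp (-(β * S ε ω)) * -(β * S' ε ω)) ε := by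
    intro ε ω
    have h3 : HasDerivAt (fun ε => -(β * S ε ω)) (-(β * S' ε ω)) ε :=
      ((h1 ε ω).const_mul β).neg
    exact h3.exp
  have d1 : ∀ ε, HasDerivAt Z (Z1 ε) ε := by
    intro ε
    refine deriv_int P (F := fun ε ω => Real.exp (-(β * S ε ω)))
      (F' := fun ε ω => -(β * S' ε ω) * Real.exp (-(β * S ε ω))) ?_ ?_ ?_ ε
    · fun_prop
    · fun_prop
    · intro ε ω
      exact (hE ε ω).congr_deriv (by ring)
  have d2 : ∀ ε, HasDerivAt Z1 (Z2 ε) ε := by
    intro ε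
    refine deriv_int P (F := fun ε ω => -(β * S' ε ω) * Real.exp (-(β * S ε ω)))
      (F' := fun ε ω => (β ^ 2 * S' ε ω ^ 2 - β * S'' ε ω) * Real.exp (-(β * S ε ω)))
      ?_ ?_ ?_ ε
    · fun_prop
    · fun_prop
    · intro ε ω
      have k2 : HasDerivAt (fun ε => -(β * S' ε ω)) (-(β * S'' ε ω)) ε :=
        ((h2 ε ω).const_mul β).neg
      have k3 : HasDerivAt (fun ε => -(β * S' ε ω) * Real.exp (-(β * S ε ω)))
        (-(β * S'' ε ω) * Real.exp (-(β * S ε ω)) +
          -(β * S' ε ω) * (Real.exp (-(β * S ε ω)) * -(β * S' ε ω))) ε := k2.mul (hE ε ω)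
      exact k3.congr_deriv (by ring)
  have e1 : deriv (fun ε => -Real.log (Z ε)) = fun ε => -(Z1 ε / Z ε) := by
    funext ε
    exact ((d1 ε).log (hpos ε).ne').neg.deriv
  have e2 : iteratedDeriv 2 (fun ε => -Real.log (Z ε)) 0 =
      -((Z2 0 * Z 0 - Z1 0 * Z1 0) / Z 0 ^ 2) := by
    rw [iteratedDeriv_succ, iteratedDeriv_one, e1]
    exact ((d2 0).div (d1 0) (hpos 0).ne').neg.deriv
  have hcE : Continuous fun ω => Real.exp (-(β * S 0 ω)) := by
    have := hS.comp (Continuous.prodMk_right (0 : ℝ))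
    exact Real.continuous_exp.comp (continuous_const.mul this).neg
  have hc1 : Continuous (S' 0) := hS'.comp (Continuous.prodMk_right (0 : ℝ))
  have hc2 : Continuous (S'' 0) := hS''.comp (Continuous.prodMk_right (0 : ℝ))
  have i1 : Z1 0 = -(β * ∫ ω, S' 0 ω * Real.exp (-(β * S 0 ω)) ∂P) := by
    rw [← integral_const_mul, ← integral_neg]
    refine integral_congr_ae (Filter.Eventually.of_forall fun ω => ?_)
    show -(β * S' 0 ω) * Real.exp (-(β * S 0 ω)) = -(β * (S' 0 ω * Real.exp (-(β * S 0 ω))))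
    ring
  have i2 : Z2 0 = β ^ 2 * (∫ ω, S' 0 ω ^ 2 * Real.exp (-(β * S 0 ω)) ∂P) -
      β * ∫ ω, S'' 0 ω * Real.exp (-(β * S 0 ω)) ∂P := by
    have j1 : Integrable (fun ω => β ^ 2 * (S' 0 ω ^ 2 * Real.exp (-(β * S 0 ω)))) P :=
      int_of_cont P (by fun_prop)
    have j2 : Integrable (fun ω => β * (S'' 0 ω * Real.exp (-(β * S 0 ω)))) P :=
      int_of_cont P (by fun_prop)
    rw [← integral_const_mul, ← integral_const_mul, ← integral_sub j1 j2]
    refine integral_congr_ae (Filter.Eventually.of_forall fun ω => ?_)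
    show (β ^ 2 * S' 0 ω ^ 2 - β * S'' 0 ω) * Real.exp (-(β * S 0 ω)) = β ^ 2 * (S' 0 ω ^ 2 *
      Real.exp (-(β * S 0 ω))) - β * (S'' 0 ω * Real.exp (-(β * S 0 ω)))
    ring
  rw [e2, i1, i2]
  have hne : (∫ ω, Real.exp (-(β * S 0 ω)) ∂P) ≠ 0 := (hpos 0).ne'
  show -(((_ : ℝ) * (∫ ω, Real.exp (-(β * S 0 ω)) ∂P) - _) /
    (∫ ω, Real.exp (-(β * S 0 ω)) ∂P) ^ 2) = _
  field_simp
  ring

end abs

/-! ### The basic function in a Banach algebra -/

section alg

variable {A : Type*} [NormedRing A] [NormedAlgebra ℝ A] [CompleteSpace A]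

/-- the exponential -/
def Ex (T : A) (x : ℝ) : A := NormedSpace.exp (x • T)

/-- the basic function -/
def gA (T : A) (α τ : ℝ) (B Y R : A) (ε : ℝ) : A :=
  Ex T (α * ε) * B * (Ex T (τ * ε) * Y * Ex T (-(τ * ε))) * R

theorem Ex_deriv (T : A) (x : ℝ) : HasDerivAt (Ex T) (Ex T x * T) x :=
  hasDerivAt_exp_smul_const (𝕂 := ℝ) T x

theorem Ex_deriv' (T : A) (x : ℝ) : HasDerivAt (Ex T) (T * Ex T x) x :=
  hasDerivAt_exp_smul_const' (𝕂 := ℝ) T x

theorem Ex_cont (T : A) : Continuous (Ex T) :=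
  continuous_iff_continuousAt.2 fun x => (Ex_deriv T x).continuousAt

theorem Ex_zero (T : A) : Ex T 0 = 1 := by
  unfold Ex
  rw [zero_smul, NormedSpace.exp_zero]

theorem Ex_neg (T : A) (x : ℝ) : Ex T x * Ex T (-x) = 1 := by
  let _ : NormedAlgebra ℚ A := NormedAlgebra.restrictScalars ℚ ℝ A
  unfold Ex
  have hc : Commute (x • T) (-x • T) := by
    rw [neg_smul]
    exact (Commute.refl _).neg_right
  rw [← NormedSpace.exp_add_of_commute hc, neg_smul, add_neg_cancel, NormedSpace.exp_zero]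

theorem gA_deriv (T : A) (α τ : ℝ) (B Y R : A) (ε : ℝ) :
    HasDerivAt (gA T α τ B Y R)
      (α • gA T α τ (T * B) Y R ε + τ • gA T α τ B (T * Y - Y * T) R ε) ε := by
  have h1 : HasDerivAt (fun ε => Ex T (α * ε)) (α • (Ex T (α * ε) * T)) ε := by
    have h0 : HasDerivAt (fun ε : ℝ => α * ε) α ε := by
      simpa using (hasDerivAt_id ε).const_mul α
    exact (Ex_deriv T (α * ε)).scomp ε h0
  have h2 : HasDerivAt (fun ε => Ex T (τ * ε)) (τ • (Ex T (τ * ε) * T)) ε := by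
    have h0 : HasDerivAt (fun ε : ℝ => τ * ε) τ ε := by
      simpa using (hasDerivAt_id ε).const_mul τ
    exact (Ex_deriv T (τ * ε)).scomp ε h0
  have h3 : HasDerivAt (fun ε => Ex T (-(τ * ε))) ((-τ) • (T * Ex T (-(τ * ε)))) ε := by
    have h0 : HasDerivAt (fun ε : ℝ => -(τ * ε)) (-τ) ε :=
      (((hasDerivAt_id ε).const_mul τ).neg).congr_deriv (by simp)
    exact (Ex_deriv' T (-(τ * ε))).scomp ε h0
  have h4 : HasDerivAt (fun ε => Ex T (τ * ε) * Y * Ex T (-(τ * ε)))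
      ((τ • (Ex T (τ * ε) * T)) * Y * Ex T (-(τ * ε)) +
        Ex T (τ * ε) * Y * ((-τ) • (T * Ex T (-(τ * ε))))) ε := (h2.mul_const Y).mul h3
  have h5 : HasDerivAt (fun ε => Ex T (α * ε) * B * (Ex T (τ * ε) * Y * Ex T (-(τ * ε))))
      ((α • (Ex T (α * ε) * T)) * B * (Ex T (τ * ε) * Y * Ex T (-(τ * ε))) +
        Ex T (α * ε) * B * ((τ • (Ex T (τ * ε) * T)) * Y * Ex T (-(τ * ε)) +
        Ex T (τ * ε) * Y * ((-τ) • (T * Ex T (-(τ * ε)))))) ε := (h1.mul_const B).mul h4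
  have h6 := h5.mul_const R
  refine h6.congr_deriv ?_
  unfold gA
  simp only [smul_mul_assoc, mul_smul_comm, neg_smul, mul_add, add_mul, mul_sub, sub_mul,
    smul_sub, mul_assoc, mul_neg, neg_mul]
  abel

theorem gA_zero (T : A) (α τ : ℝ) (B Y R : A) : gA T α τ B Y R 0 = B * Y * R := by
  unfold gA
  simp [Ex_zero]

theorem gA_cont {X : Type*} [TopologicalSpace X] (T : A) (α τ : ℝ) (B : A) {Y R : X → A}
    (hY : Continuous Y) (hR : Continuous R) :
    Continuous fun p : ℝ × X => gA T α τ B (Y p.2) (R p.2) p.1 := by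
  have hE := Ex_cont T
  have k1 : Continuous fun p : ℝ × X => Ex T (α * p.1) := hE.comp (by fun_prop)
  have k2 : Continuous fun p : ℝ × X => Ex T (τ * p.1) := hE.comp (by fun_prop)
  have k3 : Continuous fun p : ℝ × X => Ex T (-(τ * p.1)) := hE.comp (by fun_prop)
  exact ((k1.mul continuous_const).mul ((k2.mul (hY.comp continuous_snd)).mul k3)).mul
    (hR.comp continuous_snd)

variable [FiniteDimensional ℝ A] (φ : A →ₗ[ℝ] ℝ)

/-- the value of the functional -/
def gg (T : A) (α τ : ℝ) (B Y R : A) (ε : ℝ) : ℝ := φ (gA T α τ B Y R ε)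

theorem gg_deriv (T : A) (α τ : ℝ) (B Y R : A) (ε : ℝ) :
    HasDerivAt (gg φ T α τ B Y R)
      (α * gg φ T α τ (T * B) Y R ε + τ * gg φ T α τ B (T * Y - Y * T) R ε) ε := by
  have h := (LinearMap.toContinuousLinearMap φ).hasFDerivAt.comp_hasDerivAt ε
    (gA_deriv T α τ B Y R ε)
  refine h.congr_deriv ?_
  show φ _ = _
  rw [map_add, map_smul, map_smul]
  rfl

theorem gg_cont {X : Type*} [TopologicalSpace X] (T : A) (α τ : ℝ) (B : A) {Y R : X → A}
    (hY : Continuous Y) (hR : Continuous R) :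
    Continuous fun p : ℝ × X => gg φ T α τ B (Y p.2) (R p.2) p.1 :=
  (LinearMap.toContinuousLinearMap φ).continuous.comp (gA_cont T α τ B hY hR)

theorem gg_zero (T : A) (α τ : ℝ) (B Y R : A) : gg φ T α τ B Y R 0 = φ (B * Y * R) := by
  unfold gg
  rw [gA_zero]

/-- a term of the action and its two derivatives -/
def q0 (T : A) (α τ : ℝ) (Y R : A) (ε : ℝ) : ℝ := φ 1 - gg φ T α τ 1 Y R ε

def q1 (T : A) (α τ : ℝ) (Y R : A) (ε : ℝ) : ℝ :=
  -(α * gg φ T α τ (T * 1) Y R ε + τ * gg φ T α τ 1 (T * Y - Y * T) R ε)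

def q2 (T : A) (α τ : ℝ) (Y R : A) (ε : ℝ) : ℝ :=
  -(α * (α * gg φ T α τ (T * (T * 1)) Y R ε + τ * gg φ T α τ (T * 1) (T * Y - Y * T) R ε) +
    τ * (α * gg φ T α τ (T * 1) (T * Y - Y * T) R ε +
      τ * gg φ T α τ 1 (T * (T * Y - Y * T) - (T * Y - Y * T) * T) R ε))

theorem q0_deriv (T : A) (α τ : ℝ) (Y R : A) (ε : ℝ) :
    HasDerivAt (q0 φ T α τ Y R) (q1 φ T α τ Y R ε) ε :=
  (gg_deriv φ T α τ 1 Y R ε).const_sub _

theorem q1_deriv (T : A) (α τ : ℝ) (Y R : A) (ε : ℝ) :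
    HasDerivAt (q1 φ T α τ Y R) (q2 φ T α τ Y R ε) ε :=
  (((gg_deriv φ T α τ (T * 1) Y R ε).const_mul α).add
    ((gg_deriv φ T α τ 1 (T * Y - Y * T) R ε).const_mul τ)).neg

variable {X : Type*} [TopologicalSpace X]

theorem q0_cont (T : A) (α τ : ℝ) {Y R : X → A} (hY : Continuous Y) (hR : Continuous R) :
    Continuous fun p : ℝ × X => q0 φ T α τ (Y p.2) (R p.2) p.1 :=
  continuous_const.sub (gg_cont φ T α τ 1 hY hR)

theorem K_cont (T : A) {Y : X → A} (hY : Continuous Y) : Continuous fun x => T * Y x - Y x * T :=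
  (continuous_const.mul hY).sub (hY.mul continuous_const)

theorem q1_cont (T : A) (α τ : ℝ) {Y R : X → A} (hY : Continuous Y) (hR : Continuous R) :
    Continuous fun p : ℝ × X => q1 φ T α τ (Y p.2) (R p.2) p.1 :=
  ((continuous_const.mul (gg_cont φ T α τ _ hY hR)).add
    (continuous_const.mul (gg_cont φ T α τ _ (K_cont T hY) hR))).neg

theorem q2_cont (T : A) (α τ : ℝ) {Y R : X → A} (hY : Continuous Y) (hR : Continuous R) :
    Continuous fun p : ℝ × X => q2 φ T α τ (Y p.2) (R p.2) p.1 :=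
  ((continuous_const.mul ((continuous_const.mul (gg_cont φ T α τ _ hY hR)).add
    (continuous_const.mul (gg_cont φ T α τ _ (K_cont T hY) hR)))).add
    (continuous_const.mul ((continuous_const.mul (gg_cont φ T α τ _ (K_cont T hY) hR)).add
    (continuous_const.mul (gg_cont φ T α τ _ (K_cont T (K_cont T hY)) hR))))).neg

end alg

section main

variable {N L : ℕ} {G : Subgroup (UU N)}

/-- The unitary group is compact. -/
theorem compactU (n : ℕ) : CompactSpace (Matrix.unitaryGroup (Fin n) ℂ) := by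
  have hK : IsCompact (Set.univ.pi fun _ : Fin n => Set.univ.pi fun _ : Fin n =>
      Metric.closedBall (0 : ℂ) 1) :=
    isCompact_univ_pi fun i => isCompact_univ_pi fun j => isCompact_closedBall 0 1
  have hcl : IsClosed ((Matrix.unitaryGroup (Fin n) ℂ : Set (Matrix (Fin n) (Fin n) ℂ))) := by
    have h : ((Matrix.unitaryGroup (Fin n) ℂ : Set (Matrix (Fin n) (Fin n) ℂ)))
        = {A | A * star A = 1} := by
      ext A
      exact Matrix.mem_unitaryGroup_iff
    rw [h]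
    refine isClosed_eq ?_ continuous_const
    exact continuous_id.mul (continuous_star)
  have hc : IsCompact ((Matrix.unitaryGroup (Fin n) ℂ : Set (Matrix (Fin n) (Fin n) ℂ))) := by
    refine IsCompact.of_isClosed_subset (s := Set.univ.pi fun _ : Fin n =>
      Set.univ.pi fun _ : Fin n => Metric.closedBall (0 : ℂ) 1) hK hcl ?_
    intro A hA i _ j _
    rw [mem_closedBall_zero_iff]
    exact entry_norm_bound_of_unitary hA i j
  exact isCompact_iff_compactSpace.1 hc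

theorem secU (n : ℕ) : SecondCountableTopology (Matrix.unitaryGroup (Fin n) ℂ) := by
  have : SecondCountableTopology (Matrix (Fin n) (Fin n) ℂ) :=
    inferInstanceAs (SecondCountableTopology (Fin n → Fin n → ℂ))
  exact TopologicalSpace.Subtype.secondCountableTopology _

/-- the real part of the trace -/
def retr (N : ℕ) : Mt N →ₗ[ℝ] ℝ where
  toFun M := (trace M).re
  map_add' M M' := by rw [trace_add, Complex.add_re]
  map_smul' c M := by
    rw [trace_smul]
    simp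

theorem retr_apply (M : Mt N) : retr N M = (trace M).re := rfl

theorem mt_cont : Continuous (mt : G → Mt N) :=
  continuous_subtype_val.comp continuous_subtype_val

theorem mt_mul (g h : G) : mt (g * h) = mt g * mt h := rfl

theorem mt_one : mt (1 : G) = 1 := rfl

theorem fx_cont (w : Links L) : Continuous fun U : Links L → G => fx U w := by
  unfold fx
  by_cases hw : dyn w
  · simp only [if_pos hw]
    exact continuous_apply w
  · simp only [if_neg hw]
    exact continuous_const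

theorem lg_cont (p : Pq L) (i : Fin 4) : Continuous fun U : Links L → G => lg (fx U) p i := by
  unfold lg
  cases h : lv p.2.1 p.2.2 i with
  | none => exact continuous_const
  | some a =>
    simp only
    by_cases hb : sb p.2.2 i = true
    · simp only [if_pos hb]
      exact fx_cont _
    · simp only [if_neg hb]
      exact (fx_cont _).inv

theorem mt_e_inv {T : Mt N} {e : ℝ → G} (he : ∀ t, mt (e t) = NormedSpace.exp (t • T)) (θ : ℝ) :
    mt (e θ)⁻¹ = Ex T (-θ) := by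
  have h1 : mt (e θ)⁻¹ * mt (e θ) = 1 := by
    rw [← mt_mul, inv_mul_cancel, mt_one]
  have h2 : mt (e θ) = Ex T θ := he θ
  calc mt (e θ)⁻¹ = mt (e θ)⁻¹ * (Ex T θ * Ex T (-θ)) := by rw [Ex_neg, mul_one]
    _ = (mt (e θ)⁻¹ * mt (e θ)) * Ex T (-θ) := by rw [h2, mul_assoc]
    _ = Ex T (-θ) := by rw [h1, one_mul]

theorem term0 {T : Mt N} {e : ℝ → G} (he : ∀ t, mt (e t) = NormedSpace.exp (t • T)) (α τ ε : ℝ)
    (g : Fin 4 → G) : (trace (1 - mt (bg e (α * ε) (τ * ε) g))).re =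
      q0 (retr N) T α τ (mt (g 0)) (mt (g 1) * mt (g 2) * mt (g 3)) ε := by
  have k1 : mt (e (α * ε)) = Ex T (α * ε) := he _
  have k2 : mt (e (τ * ε)) = Ex T (τ * ε) := he _
  have k3 : mt (e (τ * ε))⁻¹ = Ex T (-(τ * ε)) := mt_e_inv he _
  have key : mt (bg e (α * ε) (τ * ε) g) =
      gA T α τ 1 (mt (g 0)) (mt (g 1) * mt (g 2) * mt (g 3)) ε := by
    have k4 : mt (bg e (α * ε) (τ * ε) g) = mt (e (α * ε)) *
      (mt (e (τ * ε)) * mt (g 0) * mt (e (τ * ε))⁻¹) * mt (g 1) * mt (g 2) * mt (g 3) := rfl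
    rw [k4, k1, k2, k3]
    unfold gA
    rw [mul_one]
    simp only [mul_assoc]
  rw [key, trace_sub, Complex.sub_re]
  rfl

theorem term00 (T : Mt N) (α τ : ℝ) (g : Fin 4 → G) :
    (trace (1 - mt (g 0 * g 1 * g 2 * g 3))).re =
      q0 (retr N) T α τ (mt (g 0)) (mt (g 1) * mt (g 2) * mt (g 3)) 0 := by
  have k4 : mt (g 0 * g 1 * g 2 * g 3) = 1 * mt (g 0) * (mt (g 1) * mt (g 2) * mt (g 3)) := by
    rw [mt_mul, mt_mul, mt_mul, one_mul]
    simp only [mul_assoc]
  unfold q0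
  rw [gg_zero, trace_sub, Complex.sub_re, k4]
  rfl

theorem term1 (T : Mt N) (α τ : ℝ) (g : Fin 4 → G) :
    D1 T α τ g = q1 (retr N) T α τ (mt (g 0)) (mt (g 1) * mt (g 2) * mt (g 3)) 0 := by
  unfold q1 D1
  rw [gg_zero, gg_zero, retr_apply, retr_apply]
  simp only [mul_assoc, one_mul, mul_one]

theorem term2 (T : Mt N) (α τ : ℝ) (g : Fin 4 → G) :
    D2 T α τ g = q2 (retr N) T α τ (mt (g 0)) (mt (g 1) * mt (g 2) * mt (g 3)) 0 := by
  unfold q2 D2
  rw [gg_zero, gg_zero, gg_zero, retr_apply, retr_apply, retr_apply]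
  simp only [mul_assoc, one_mul, mul_one]
  ring

theorem af_diff : S_DIFF := by
  intro N G hG _ _ μ _ T e he L _ β
  have hcU := compactU N
  have hcG : CompactSpace G := isCompact_iff_compactSpace.1 hG.isCompact
  have h00 := secU N
  have h01 : SecondCountableTopology G := TopologicalSpace.Subtype.secondCountableTopology _
  -- the data
  let Y : Pq L → (Links L → G) → Mt N := fun p U => mt (lg (fx U) p 0)
  let R : Pq L → (Links L → G) → Mt N := fun p U =>
    mt (lg (fx U) p 1) * mt (lg (fx U) p 2) * mt (lg (fx U) p 3)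
  have hm : ∀ p i, Continuous fun U : Links L → G => mt (lg (fx U) p i) :=
    fun p i => mt_cont.comp (lg_cont p i)
  have hR : ∀ p, Continuous (R p) := fun p => ((hm p 1).mul (hm p 2)).mul (hm p 3)
  have hY : ∀ p, Continuous (Y p) := fun p => hm p 0
  have main := abs_diff (Measure.pi fun _ : Links L => μ)
    (S := fun ε U => ∑ p : Pq L, q0 (retr N) T (al L p.2.2) (ta p.2.1 p.2.2) (Y p U) (R p U) ε)
    (S' := fun ε U => ∑ p : Pq L, q1 (retr N) T (al L p.2.2) (ta p.2.1 p.2.2) (Y p U) (R p U) ε)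
    (S'' := fun ε U => ∑ p : Pq L, q2 (retr N) T (al L p.2.2) (ta p.2.1 p.2.2) (Y p U) (R p U) ε)
    (continuous_finsetSum _ fun p _ => q0_cont (retr N) T _ _ (hY p) (hR p))
    (continuous_finsetSum _ fun p _ => q1_cont (retr N) T _ _ (hY p) (hR p))
    (continuous_finsetSum _ fun p _ => q2_cont (retr N) T _ _ (hY p) (hR p))
    (fun ε U => HasDerivAt.fun_sum fun p _ => q0_deriv (retr N) T _ _ (Y p U) (R p U) ε)
    (fun ε U => HasDerivAt.fun_sum fun p _ => q1_deriv (retr N) T _ _ (Y p U) (R p U) ε) β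
  have eS : ∀ (ε : ℝ) (U : Links L → G), Sg e ε U =
      ∑ p : Pq L, q0 (retr N) T (al L p.2.2) (ta p.2.1 p.2.2) (Y p U) (R p U) ε :=
    fun ε U => Finset.sum_congr rfl fun p _ => term0 he _ _ _ _
  have eS0 : ∀ U : Links L → G, S0 U =
      ∑ p : Pq L, q0 (retr N) T (al L p.2.2) (ta p.2.1 p.2.2) (Y p U) (R p U) 0 :=
    fun U => Finset.sum_congr rfl fun p _ => term00 T _ _ _
  have eS1 : ∀ U : Links L → G, S1 T U =
      ∑ p : Pq L, q1 (retr N) T (al L p.2.2) (ta p.2.1 p.2.2) (Y p U) (R p U) 0 :=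
    fun U => Finset.sum_congr rfl fun p _ => term1 T _ _ _
  have eS2 : ∀ U : Links L → G, S2 T U =
      ∑ p : Pq L, q2 (retr N) T (al L p.2.2) (ta p.2.1 p.2.2) (Y p U) (R p U) 0 :=
    fun U => Finset.sum_congr rfl fun p _ => term2 T _ _ _
  unfold EX
  simp only [eS, eS0, eS1, eS2]
  exact main

end main

end

end Pool.Agent.Y515.AF
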